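import Pool.Agent.K1H53.BI.Plan5

/-!
# Piece SL: lower bound for the odometer
-/

set_option autoImplicit false

open scoped ENNReal
open Finset Pool.Agent.K1H53.BI

namespace Pool.Agent.K1H11.BI5

theorem nsq_int (x : V) : (nsq x : ℤ) = x 0 ^ 2 + x 1 ^ 2 + x 2 ^ 2 := by
  unfold nsq
  rw [Fin.sum_univ_three]
  push_cast
  simp only [sq_abs]

theorem nsq_zero : nsq (0 : V) = 0 := by
  simp [nsq]

theorem nsq_add_dir (x : V) (e : Fin 3 × Bool) :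
    (nsq (x + dir e) : ℤ) = nsq x + 2 * (if e.2 then x e.1 else - x e.1) + 1 := by
  rw [nsq_int, nsq_int]
  obtain ⟨j, b⟩ := e
  fin_cases j <;> cases b <;> simp [dir] <;> ring

theorem nrm_sq (x : V) : nrm x ^ 2 = (nsq x : ℝ) := Real.sq_sqrt (Nat.cast_nonneg _)

theorem nrm_nonneg (x : V) : 0 ≤ nrm x := Real.sqrt_nonneg _

theorem nrm_dir_le (x : V) (e : Fin 3 × Bool) : nrm (x + dir e) ≤ nrm x + 1 := by
  have h0 := nrm_nonneg x
  have h1 : (nsq (x + dir e) : ℝ) = nsq x + 2 * (if e.2 then (x e.1 : ℝ) else - (x e.1 : ℝ)) + 1 := by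
    have := nsq_add_dir x e
    have h : ((nsq (x + dir e) : ℤ) : ℝ) =
        ((nsq x + 2 * (if e.2 then x e.1 else - x e.1) + 1 : ℤ) : ℝ) := by rw [this]
    push_cast at h
    exact h
  have h2 : ((x e.1 : ℝ)) ^ 2 ≤ nrm x ^ 2 := by
    rw [nrm_sq]
    have h3 : ((x e.1) ^ 2 : ℤ) ≤ (nsq x : ℤ) := by
      rw [nsq_int]
      have h0 := sq_nonneg (x 0)
      have h1 := sq_nonneg (x 1)
      have h2 := sq_nonneg (x 2)
      obtain ⟨j, b⟩ := e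
      fin_cases j <;> simp <;> linarith
    exact_mod_cast h3
  have h3 := abs_le_of_sq_le_sq h2 h0
  have h4 := abs_le.1 h3
  have h5 : (nsq (x + dir e) : ℝ) ≤ (nrm x + 1) ^ 2 := by
    rw [h1, ← nrm_sq]
    split_ifs <;> nlinarith [h4.1, h4.2]
  have h6 : nrm (x + dir e) ^ 2 ≤ (nrm x + 1) ^ 2 := by rw [nrm_sq]; exact h5
  exact le_of_sq_le_sq h6 (by linarith)
where
  le_of_sq_le_sq {a b : ℝ} (h : a ^ 2 ≤ b ^ 2) (hb : 0 ≤ b) : a ≤ b :=
    (abs_le_of_sq_le_sq' h hb).2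

theorem av_const_sub (b : ℝ) (f : V → ℝ) (x : V) : av (fun y => b - f y) x = b - av f x := by
  unfold av
  rw [Finset.sum_sub_distrib]
  simp
  ring

theorem av_mul_sub (c m : ℝ) (f : V → ℝ) (x : V) :
    av (fun y => c * f y - m) x = c * av f x - m := by
  unfold av
  rw [Finset.sum_sub_distrib, ← Finset.mul_sum]
  simp
  ring

/-- lower bound for `qf` -/
theorem qf_low {z : V} {R : ℕ} (hR : 8 ≤ R) (hz2 : (R : ℝ) ≤ 2 * nrm z) :
    1 / nrm z - 80 / (R : ℝ) ^ 3 ≤ qf z := by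
  have hRr : (8 : ℝ) ≤ R := by exact_mod_cast hR
  have hρ : 4 ≤ nrm z := by linarith
  have hρ0 : 0 < nrm z := by linarith
  have hR0 : (0 : ℝ) < R := by linarith
  have h1 : 10 / nrm z ^ 3 ≤ 80 / (R : ℝ) ^ 3 := by
    rw [div_le_div_iff₀ (by positivity) (by positivity)]
    have h2 : (R : ℝ) ^ 3 ≤ (2 * nrm z) ^ 3 := pow_le_pow_left₀ hR0.le hz2 3
    have h3 : (2 * nrm z) ^ 3 = 8 * nrm z ^ 3 := by ring
    linarith
  have h2 : 1 / nrm z - 10 / nrm z ^ 3 ≤ qf z := by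
    unfold qf
    rw [← nrm_sq]
    have hs : 0 < Real.sqrt (nrm z ^ 2 + 20) := Real.sqrt_pos.2 (by positivity)
    rw [le_div_iff₀ hs]
    have h3 : Real.sqrt (nrm z ^ 2 + 20) ≤ nrm z + 10 / nrm z := by
      rw [Real.sqrt_le_left (by positivity)]
      have : (nrm z + 10 / nrm z) ^ 2 = nrm z ^ 2 + 20 + (10 / nrm z) ^ 2 := by
        field_simp
        ring
      rw [this]
      have := sq_nonneg (10 / nrm z)
      linarith
    have h4 : 0 ≤ 1 / nrm z - 10 / nrm z ^ 3 := by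
      rw [sub_nonneg, div_le_div_iff₀ (by positivity) hρ0]
      have : nrm z ^ 3 = nrm z ^ 2 * nrm z := by ring
      have h5 : 16 ≤ nrm z ^ 2 := by nlinarith
      nlinarith
    calc (1 / nrm z - 10 / nrm z ^ 3) * Real.sqrt (nrm z ^ 2 + 20)
        ≤ (1 / nrm z - 10 / nrm z ^ 3) * (nrm z + 10 / nrm z) := mul_le_mul_of_nonneg_left h3 h4
      _ = 1 - 100 / nrm z ^ 4 := by
          field_simp
          ring
      _ ≤ 1 := by
          have : 0 ≤ 100 / nrm z ^ 4 := by positivity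
          linarith
  linarith

/-- the sum of `lam` -/
theorem lam_sum (hF : S_FLUX) (hB : S_BALL) {R : ℕ} {δ : ℝ} (hR : 8 ≤ R) (hδ : 12 ≤ δ) :
    2 * ((R : ℝ) + δ / 2) ^ 3 * ∑ x ∈ BR R, lam x ≤ 4 * Real.pi / 3 * ((R : ℝ) + δ) ^ 3 := by
  have hRr : (8 : ℝ) ≤ R := by exact_mod_cast hR
  have hπ := Real.pi_pos
  have h1 := hF R (by omega)
  have h2 := hB.1 ((R : ℝ) + 1) (BR R) (by positivity) (by
    intro z hz
    have h3 := mem_BR.1 hz
    have h4 : (nsq z : ℝ) ≤ (R : ℝ) ^ 2 := by exact_mod_cast h3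
    have h5 : nrm z ≤ R := by
      unfold nrm
      rw [Real.sqrt_le_left (by positivity)]
      exact h4
    linarith)
  have h6 : 0 < (R : ℝ) - 1 := by linarith
  have h7 : ((R : ℝ) + δ / 2) * (R + 2) ≤ (R - 1) * (R + δ) := by nlinarith
  have h8 : (((R : ℝ) + δ / 2) * (R + 2)) ^ 3 ≤ ((R - 1) * (R + δ)) ^ 3 :=
    pow_le_pow_left₀ (by positivity) h7 3
  have h9 : ∑ x ∈ BR R, lam x ≤ 4 * Real.pi / 3 * ((R : ℝ) + 2) ^ 3 / (2 * ((R : ℝ) - 1) ^ 3) := by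
    refine h1.trans ?_
    apply div_le_div_of_nonneg_right _ (by positivity)
    have : (R : ℝ) + 1 + 1 = R + 2 := by ring
    rw [this] at h2
    exact h2
  refine (mul_le_mul_of_nonneg_left h9 (by positivity)).trans ?_
  rw [← mul_div_assoc, div_le_iff₀ (by positivity)]
  have e1 : 2 * ((R : ℝ) + δ / 2) ^ 3 * (4 * Real.pi / 3 * ((R : ℝ) + 2) ^ 3) =
      8 * Real.pi / 3 * (((R : ℝ) + δ / 2) * (R + 2)) ^ 3 := by ring
  have e2 : 4 * Real.pi / 3 * ((R : ℝ) + δ) ^ 3 * (2 * ((R : ℝ) - 1) ^ 3) =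
      8 * Real.pi / 3 * ((R - 1) * (R + δ)) ^ 3 := by ring
  rw [e1, e2]
  exact mul_le_mul_of_nonneg_left h8 (by positivity)

/-- the first case -/
theorem caseA (hPOT : C_POT) (hlam : ∀ x, 0 ≤ lam x) (hF : S_FLUX) (hB : S_BALL) {C1 : ℝ}
    (hC1 : 0 < C1) {R : ℕ} {δ : ℝ} {G : V → V → ℝ} {z : V} (hG : IsGreen R G) (hR : 8 ≤ R)
    (hδ : 12 ≤ δ) (hδR : δ ≤ R) (hz : nrm z ≤ R) (hz2 : (R : ℝ) ≤ 2 * nrm z)
    (hErr : ∑ y ∈ BR R, lam y * |G z y - G z 0| ≤ C1 * ((R : ℝ) + 1 - nrm z) / (R : ℝ) ^ 3) :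
    2 * (R : ℝ) ^ 2 * (R - nrm z) / nrm z + 3 * δ * (R - nrm z) - 1280 -
      16 * C1 * (R + 1 - nrm z) ≤ 4 * Real.pi / 3 * ((R : ℝ) + δ) ^ 3 * G z 0 := by
  have hRr : (8 : ℝ) ≤ R := by exact_mod_cast hR
  have hR0 : (0 : ℝ) < R := by linarith
  have hρ0 : 0 < nrm z := by linarith
  have hg : 0 ≤ G z 0 := hG.nonneg z 0
  have hnz : nsq z ≤ R ^ 2 := by
    have h1 : nrm z ^ 2 ≤ (R : ℝ) ^ 2 := pow_le_pow_left₀ (nrm_nonneg z) hz 2
    rw [nrm_sq] at h1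
    exact_mod_cast h1
  -- comparison
  have hp := (hPOT R G hG).1 (fun y => -lam y) (fun x => 1 / Real.sqrt ((R : ℝ) ^ 2 + 20) - qf x)
    (by
      intro y _
      rw [av_const_sub]
      unfold lam
      linarith)
    (by
      intro x hx _
      rw [sub_nonneg]
      unfold qf
      have hx' : ((R : ℝ) ^ 2) ≤ nsq x := by exact_mod_cast hx.le
      apply one_div_le_one_div_of_le (Real.sqrt_pos.2 (by positivity))
      exact Real.sqrt_le_sqrt (by linarith))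
    z (mem_BR.2 hnz)
  have hs : ∑ y ∈ BR R, G z y * lam y ≤ (∑ y ∈ BR R, lam y) * G z 0 +
      ∑ y ∈ BR R, lam y * |G z y - G z 0| := by
    rw [Finset.sum_mul, ← Finset.sum_add_distrib]
    refine Finset.sum_le_sum fun y _ => ?_
    have h1 := le_abs_self (G z y - G z 0)
    have h2 := mul_le_mul_of_nonneg_left h1 (hlam y)
    linarith
  have hp2 : qf z - 1 / Real.sqrt ((R : ℝ) ^ 2 + 20) ≤ ∑ y ∈ BR R, G z y * lam y := by
    have : ∑ y ∈ BR R, G z y * -lam y = -∑ y ∈ BR R, G z y * lam y := by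
      rw [← Finset.sum_neg_distrib]
      exact Finset.sum_congr rfl fun y _ => by ring
    rw [this] at hp
    linarith
  have hb : 1 / Real.sqrt ((R : ℝ) ^ 2 + 20) ≤ 1 / R := by
    apply one_div_le_one_div_of_le hR0
    apply Real.le_sqrt_of_sq_le
    linarith
  have hq := qf_low hR hz2
  obtain ⟨K, hK⟩ : ∃ K, K = 2 * ((R : ℝ) + δ / 2) ^ 3 := ⟨_, rfl⟩
  have hK0 : 0 < K := by rw [hK]; positivity
  have hK1 : K ≤ 16 * (R : ℝ) ^ 3 := by
    have h1 : ((R : ℝ) + δ / 2) ^ 3 ≤ (2 * R) ^ 3 :=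
      pow_le_pow_left₀ (by positivity) (by linarith) 3
    have h2 : (2 * (R : ℝ)) ^ 3 = 8 * (R : ℝ) ^ 3 := by ring
    rw [hK]
    linarith
  have hK2 : 2 * (R : ℝ) ^ 3 + 3 * (R : ℝ) ^ 2 * δ ≤ K := by
    rw [hK]
    have : 2 * ((R : ℝ) + δ / 2) ^ 3 =
        2 * (R : ℝ) ^ 3 + 3 * (R : ℝ) ^ 2 * δ + (3 / 2 * R * δ ^ 2 + δ ^ 3 / 4) := by ring
    rw [this]
    have : 0 ≤ 3 / 2 * R * δ ^ 2 + δ ^ 3 / 4 := by positivity
    linarith
  have hKl := lam_sum hF hB hR hδ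
  rw [← hK] at hKl
  -- the main inequality
  have h1 : 1 / nrm z - 1 / R - 80 / (R : ℝ) ^ 3 - C1 * ((R : ℝ) + 1 - nrm z) / (R : ℝ) ^ 3 ≤
      (∑ y ∈ BR R, lam y) * G z 0 := by linarith
  have h2 := mul_le_mul_of_nonneg_left h1 hK0.le
  have h3 : K * ((∑ y ∈ BR R, lam y) * G z 0) ≤ 4 * Real.pi / 3 * ((R : ℝ) + δ) ^ 3 * G z 0 := by
    rw [← mul_assoc]
    exact mul_le_mul_of_nonneg_right hKl hg
  have hd : 0 ≤ 1 / nrm z - 1 / R := by
    rw [sub_nonneg]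
    exact one_div_le_one_div_of_le hρ0 hz
  have h4 : (2 * (R : ℝ) ^ 3 + 3 * (R : ℝ) ^ 2 * δ) * (1 / nrm z - 1 / R) ≤
      K * (1 / nrm z - 1 / R) := mul_le_mul_of_nonneg_right hK2 hd
  have h5 : (2 * (R : ℝ) ^ 3 + 3 * (R : ℝ) ^ 2 * δ) * (1 / nrm z - 1 / R) =
      2 * (R : ℝ) ^ 2 * (R - nrm z) / nrm z + 3 * δ * ((R : ℝ) / nrm z * (R - nrm z)) := by
    field_simp
  have h6 : 3 * δ * (R - nrm z) ≤ 3 * δ * ((R : ℝ) / nrm z * (R - nrm z)) := by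
    apply mul_le_mul_of_nonneg_left _ (by positivity)
    have h7 : 1 ≤ (R : ℝ) / nrm z := by rwa [one_le_div₀ hρ0]
    have h8 : 0 ≤ (R : ℝ) - nrm z := by linarith
    nlinarith
  have h9 : K * (80 / (R : ℝ) ^ 3) ≤ 1280 := by
    rw [← mul_div_assoc, div_le_iff₀ (by positivity)]
    linarith
  have hH : 0 ≤ C1 * ((R : ℝ) + 1 - nrm z) := mul_nonneg hC1.le (by linarith)
  have h10 : K * (C1 * ((R : ℝ) + 1 - nrm z) / (R : ℝ) ^ 3) ≤ 16 * C1 * (R + 1 - nrm z) := by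
    rw [← mul_div_assoc, div_le_iff₀ (by positivity)]
    have h11 := mul_le_mul_of_nonneg_right hK1 hH
    have h12 : 16 * (R : ℝ) ^ 3 * (C1 * ((R : ℝ) + 1 - nrm z)) =
      16 * C1 * (R + 1 - nrm z) * (R : ℝ) ^ 3 := by ring
    linarith
  have h13 : K * (1 / nrm z - 1 / R - 80 / (R : ℝ) ^ 3 -
      C1 * ((R : ℝ) + 1 - nrm z) / (R : ℝ) ^ 3) = K * (1 / nrm z - 1 / R) -
      K * (80 / (R : ℝ) ^ 3) - K * (C1 * ((R : ℝ) + 1 - nrm z) / (R : ℝ) ^ 3) := by ring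
  linarith

/-- the second case -/
theorem caseB (hMAX : S_MAXP) (hPOT : C_POT) (hlam : ∀ x, 0 ≤ lam x) (hF : S_FLUX) (hB : S_BALL)
    {C1 : ℝ} (hC1 : 0 < C1) {R : ℕ} {δ : ℝ} {G : V → V → ℝ} {z : V} (hG : IsGreen R G)
    (hR : 8 ≤ R) (hδ : 12 ≤ δ) (hδR : δ ≤ R) (hz : 2 * nrm z < R)
    (hErr : ∀ x : V, nsq x ≤ R ^ 2 → R ^ 2 ≤ 4 * nsq x →
      ∑ y ∈ BR R, lam y * |G x y - G x 0| ≤ C1 * ((R : ℝ) + 1 - nrm x) / (R : ℝ) ^ 3) :
    2 * (R : ℝ) ^ 2 - (8 + 16 * C1) * R - 1280 ≤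
      4 * Real.pi / 3 * ((R : ℝ) + δ) ^ 3 * G z 0 := by
  classical
  have hRr : (8 : ℝ) ≤ R := by exact_mod_cast hR
  have hR0 : (0 : ℝ) < R := by linarith
  have hπ := Real.pi_pos
  have hT : 0 ≤ 4 * Real.pi / 3 * ((R : ℝ) + δ) ^ 3 := by positivity
  have key := hMAX ((BR R).filter fun x => 4 * nsq x < R ^ 2)
    (fun x => 4 * Real.pi / 3 * ((R : ℝ) + δ) ^ 3 * G x 0 -
      (2 * (R : ℝ) ^ 2 - (8 + 16 * C1) * R - 1280))
    (by
      intro x hx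
      rw [Finset.mem_filter, mem_BR] at hx
      rw [av_mul_sub, hG.eq x 0 hx.1 (by rw [nsq_zero]; positivity)]
      have h1 : G x 0 - (if x = 0 then 1 else 0) ≤ G x 0 := by
        split_ifs <;> linarith
      have h2 := mul_le_mul_of_nonneg_left h1 hT
      linarith)
    (by
      intro x hx e hxe
      rw [Finset.mem_filter, mem_BR] at hx
      have h1 : R ^ 2 ≤ 4 * nsq (x + dir e) := by
        by_contra hcon
        rw [not_le] at hcon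
        apply hxe
        rw [Finset.mem_filter, mem_BR]
        exact ⟨by omega, hcon⟩
      have h2 : nrm x ≤ R / 2 := by
        have h3 : 4 * nrm x ^ 2 < (R : ℝ) ^ 2 := by
          rw [nrm_sq]
          exact_mod_cast hx.2
        have h4 : (2 * nrm x) ^ 2 ≤ (R : ℝ) ^ 2 := by nlinarith
        have h5 := (abs_le_of_sq_le_sq' h4 hR0.le).2
        linarith
      have h3 := nrm_dir_le x e
      have h4 : (R : ℝ) ≤ 2 * nrm (x + dir e) := by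
        have h5 : (R : ℝ) ^ 2 ≤ (2 * nrm (x + dir e)) ^ 2 := by
          rw [mul_pow, nrm_sq]
          have : ((R ^ 2 : ℕ) : ℝ) ≤ ((4 * nsq (x + dir e) : ℕ) : ℝ) := by exact_mod_cast h1
          push_cast at this
          linarith
        exact (abs_le_of_sq_le_sq' h5 (by have := nrm_nonneg (x + dir e); linarith)).2
      have h5 : nrm (x + dir e) ≤ R := by linarith
      have h6 : nsq (x + dir e) ≤ R ^ 2 := by
        have h7 : nrm (x + dir e) ^ 2 ≤ (R : ℝ) ^ 2 :=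
          pow_le_pow_left₀ (nrm_nonneg _) h5 2
        rw [nrm_sq] at h7
        exact_mod_cast h7
      have h7 := caseA hPOT hlam hF hB hC1 hG hR hδ hδR h5 h4 (hErr _ h6 h1)
      obtain ⟨ρ, hρ⟩ : ∃ ρ, ρ = nrm (x + dir e) := ⟨_, rfl⟩
      rw [← hρ] at h7 h4 h5
      have h3' : ρ ≤ R / 2 + 1 := by rw [hρ]; linarith
      have hρ0 : 0 < ρ := by linarith
      have h8 : 2 * (R : ℝ) ^ 2 - 8 * R ≤ 2 * (R : ℝ) ^ 2 * (R - ρ) / ρ := by
        rw [le_div_iff₀ hρ0]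
        have h9 : (4 * (R : ℝ) ^ 2 - 8 * R) * ρ ≤ (4 * (R : ℝ) ^ 2 - 8 * R) * (R / 2 + 1) :=
          mul_le_mul_of_nonneg_left h3' (by nlinarith)
        nlinarith
      have h9 : 0 ≤ 3 * δ * (R - ρ) := mul_nonneg (by linarith) (by linarith)
      have h10 : 16 * C1 * (R + 1 - ρ) ≤ 16 * C1 * R :=
        mul_le_mul_of_nonneg_left (by linarith) (by positivity)
      have h11 : (8 + 16 * C1) * R = 8 * R + 16 * C1 * (R : ℝ) := by ring
      rw [sub_nonneg]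
      linarith)
    z (by
      rw [Finset.mem_filter, mem_BR]
      have h1 : 4 * nsq z < R ^ 2 := by
        have h2 : (2 * nrm z) ^ 2 < (R : ℝ) ^ 2 := by
          apply pow_lt_pow_left₀ hz (by have := nrm_nonneg z; positivity) (by norm_num)
        rw [mul_pow, nrm_sq] at h2
        have h3 : ((4 * nsq z : ℕ) : ℝ) < ((R ^ 2 : ℕ) : ℝ) := by
          push_cast
          linarith
        exact_mod_cast h3
      exact ⟨by omega, h1⟩)
  linarith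

/-- numerical part of the first case -/
theorem finA {R ρ δ C1 X Y S : ℝ} (hC1 : 0 < C1) (hδ1 : 2000 + 1000 * C1 ≤ δ)
    (hR : 2000 * R ≤ δ ^ 2) (hR1 : 1 ≤ R) (hρ0 : 0 < ρ) (hρR : ρ + δ ≤ R)
    (h2 : 2 * R ^ 2 * (R - ρ) / ρ + 3 * δ * (R - ρ) - 1280 - 16 * C1 * (R + 1 - ρ) ≤ X)
    (hXY : X ≤ Y) (hS : S ≤ (R + 1) ^ 2 - ρ ^ 2) : δ * (R + 1 - ρ) ≤ Y - S := by
  have hδ0 : 0 < δ := by linarith
  obtain ⟨d, hd⟩ : ∃ d, d = R - ρ := ⟨_, rfl⟩
  have hdδ : δ ≤ d := by linarith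
  have hd0 : 0 < d := by linarith
  have h3 : R ^ 2 - ρ ^ 2 ≤ 2 * R ^ 2 * (R - ρ) / ρ := by
    rw [le_div_iff₀ hρ0]
    have h4 : 0 ≤ R - ρ := by linarith
    have h5 : (R + ρ) * ρ ≤ 2 * R ^ 2 := by nlinarith
    have h6 := mul_le_mul_of_nonneg_right h5 h4
    have e : (R + ρ) * ρ * (R - ρ) = (R ^ 2 - ρ ^ 2) * ρ := by ring
    linarith
  have e2 : R + 1 - ρ = d + 1 := by rw [hd]; ring
  rw [e2] at h2 ⊢
  rw [← hd] at h2 h3
  obtain ⟨Z, hZ⟩ : ∃ Z, Z = 2 * R ^ 2 * d / ρ := ⟨_, rfl⟩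
  rw [← hZ] at h2 h3
  obtain ⟨W, hW⟩ : ∃ W, W = δ * d := ⟨_, rfl⟩
  have h4 : 16 * C1 * (d + 1) ≤ W / 4 := by
    have h5 : 1000 * C1 * d ≤ δ * d := mul_le_mul_of_nonneg_right (by linarith) hd0.le
    have h6 : 16 * C1 * (d + 1) ≤ 16 * C1 * (2 * d) :=
      mul_le_mul_of_nonneg_left (by linarith) (by positivity)
    have h7 : 0 < C1 * d := mul_pos hC1 hd0
    linarith
  have hWδ : δ ^ 2 ≤ W := by
    have h6 : δ * δ ≤ δ * d := mul_le_mul_of_nonneg_left hdδ hδ0.le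
    linarith [sq δ]
  have h5 : 2 * R + 1 ≤ W / 4 := by linarith
  have h2000 : 2000 * δ ≤ δ ^ 2 := by
    have : 2000 * δ ≤ δ * δ := mul_le_mul_of_nonneg_right (by linarith) hδ0.le
    linarith [sq δ]
  have h6 : δ ≤ W / 4 := by linarith
  have h7 : 1280 ≤ W / 4 := by linarith
  have h8 : (R + 1) ^ 2 = R ^ 2 + (2 * R + 1) := by ring
  have h9 : δ * (d + 1) = W + δ := by rw [hW]; ring
  have h10 : 3 * δ * d = 3 * W := by rw [hW]; ring
  rw [h9]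
  rw [h10] at h2
  rw [h8] at hS
  linarith

/-- numerical part of the second case -/
theorem finB {R ρ δ C1 X Y S : ℝ} (hC1 : 0 < C1) (hδ1 : 2000 + 1000 * C1 ≤ δ)
    (hδR : 2000 * δ ≤ R) (hρ : 0 ≤ ρ)
    (h2 : 2 * R ^ 2 - (8 + 16 * C1) * R - 1280 ≤ X)
    (hXY : X ≤ Y) (hS : S ≤ (R + 1) ^ 2 - ρ ^ 2) : δ * (R + 1 - ρ) ≤ Y - S := by
  have hδ0 : 0 < δ := by linarith
  have hR0 : 0 < R := by linarith
  have hR1 : 1 ≤ R := by linarith
  have h3 : δ * (R + 1 - ρ) ≤ δ * (R + 1) := mul_le_mul_of_nonneg_left (by linarith) hδ0.le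
  have h4 : δ * (R + 1) ≤ R ^ 2 / 4 := by
    have h5 : δ * (R + 1) ≤ R / 2000 * (2 * R) :=
      mul_le_mul (by linarith) (by linarith) (by linarith) (by positivity)
    have h6 : R / 2000 * (2 * R) = R ^ 2 / 1000 := by ring
    have h7 : 0 ≤ R ^ 2 := sq_nonneg R
    linarith
  have h5 : (8 + 16 * C1) * R ≤ R ^ 2 / 4 := by
    have h6 : 8 + 16 * C1 ≤ R / 4 := by linarith
    have h7 := mul_le_mul_of_nonneg_right h6 hR0.le
    have h8 : R / 4 * R = R ^ 2 / 4 := by ring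
    linarith
  have hRR : 2000 * R ≤ R ^ 2 := by
    have : 2000 * R ≤ R * R := mul_le_mul_of_nonneg_right (by linarith) hR0.le
    linarith [sq R]
  have h8 : (R + 1) ^ 2 = R ^ 2 + (2 * R + 1) := by ring
  have h9 : 0 ≤ ρ ^ 2 := by positivity
  rw [h8] at hS
  linarith

theorem t_SL : S_SL := by
  intro hMAX hPOT hQ hF hB hE
  obtain ⟨_, _, hlam, _, _⟩ := hQ
  obtain ⟨C1, R0, hC1, hE⟩ := hE
  refine ⟨2000 + 1000 * C1 + R0, by positivity, ?_⟩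
  intro R T δ G z hG hCδ hCR hCδR hT hz
  have hR00 : (0 : ℝ) ≤ R0 := Nat.cast_nonneg _
  have hδ1 : 2000 + 1000 * C1 ≤ δ := by linarith
  have hδ0 : 0 < δ := by linarith
  have hCd : 0 ≤ 1000 * C1 * δ := by positivity
  have hRd : (0 : ℝ) ≤ R0 * δ := by positivity
  have hRδ : 2000 * δ + 1000 * C1 * δ + R0 * δ ≤ R := by linarith
  have hδR : 2000 * δ ≤ R := by linarith
  have hR0R : (R0 : ℝ) ≤ R := by
    have : (R0 : ℝ) * 1 ≤ R0 * δ := mul_le_mul_of_nonneg_left (by linarith) hR00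
    linarith
  have hR0R' : R0 ≤ R := by exact_mod_cast hR0R
  have hRr : (8 : ℝ) ≤ R := by linarith
  have hR : 8 ≤ R := by exact_mod_cast hRr
  have hRpos : (0 : ℝ) < R := by linarith
  have hρ := nrm_nonneg z
  have hg : 0 ≤ G z 0 := hG.nonneg z 0
  have hzR : nrm z ≤ R := by linarith
  have hnz : nsq z ≤ R ^ 2 := by
    have h1 : nrm z ^ 2 ≤ (R : ℝ) ^ 2 := pow_le_pow_left₀ (nrm_nonneg z) hzR 2
    rw [nrm_sq] at h1
    exact_mod_cast h1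
  have hS : ∑ y ∈ BR R, G y z ≤ ((R : ℝ) + 1) ^ 2 - nrm z ^ 2 := by
    have h1 := (hPOT R G hG).2 z (mem_BR.2 hnz)
    rw [nrm_sq]
    calc ∑ y ∈ BR R, G y z = ∑ y ∈ BR R, G z y := Finset.sum_congr rfl fun y _ => hG.symm y z
      _ ≤ _ := h1
  have hTg : 4 * Real.pi / 3 * ((R : ℝ) + δ) ^ 3 * G z 0 ≤ T * G 0 z := by
    rw [hG.symm 0 z]
    exact mul_le_mul_of_nonneg_right hT hg
  have hErr : ∀ x : V, nsq x ≤ R ^ 2 → R ^ 2 ≤ 4 * nsq x →
      ∑ y ∈ BR R, lam y * |G x y - G x 0| ≤ C1 * ((R : ℝ) + 1 - nrm x) / (R : ℝ) ^ 3 :=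
    fun x h1 h2 => hE R G x hR0R' hG h1 h2
  have hδ12 : 12 ≤ δ := by linarith
  have hδR1 : δ ≤ R := by linarith
  rcases le_or_gt (R : ℝ) (2 * nrm z) with h | h
  · -- the first case
    have h1 : R ^ 2 ≤ 4 * nsq z := by
      have h2 : (R : ℝ) ^ 2 ≤ (2 * nrm z) ^ 2 := pow_le_pow_left₀ hRpos.le h 2
      rw [mul_pow, nrm_sq] at h2
      have h3 : ((R ^ 2 : ℕ) : ℝ) ≤ ((4 * nsq z : ℕ) : ℝ) := by
        push_cast
        linarith
      exact_mod_cast h3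
    have h2 := caseA (δ := δ) hPOT hlam hF hB hC1 hG hR hδ12 hδR1 hzR h (hErr z hnz h1)
    refine finA hC1 hδ1 ?_ (by linarith) (by linarith) hz h2 hTg hS
    have h3 : 0 ≤ (1000 * C1 + R0) * (R : ℝ) := by positivity
    linarith
  · -- the second case
    have h2 := caseB (δ := δ) hMAX hPOT hlam hF hB hC1 hG hR hδ12 hδR1 h hErr
    exact finB hC1 hδ1 hδR hρ h2 hTg hS

end Pool.Agent.K1H11.BI5
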